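import Pool.Agent.Helper28.HG.Ineq
set_option autoImplicit false

/-!
Crossed homomorphisms with values in the group algebra, for a sequence whose dual is exact in
degree one.
-/

open Pool.Agent.Helper35.SH MonoidAlgebra
open scoped Matrix

namespace Pool.Agent.Helper77.FP

variable {R : Type} [CommRing R] {G : Type} [Group G]

noncomputable section

/-- the involution of the group algebra which extends `g ↦ w(g) g⁻¹` -/
def inv (w : G →* ℤˣ) (x : MonoidAlgebra R G) : MonoidAlgebra R G :=
  HopfAlgebra.antipode R (twist R w x)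

lemma inv_single (w : G →* ℤˣ) (g : G) (q : R) :
    inv w (single g q) = single g⁻¹ (q * ((w g : ℤ) : R)) := by
  unfold inv
  rw [Pool.Agent.Helper28.HG.twist_single, map_smul, MonoidAlgebra.antipode_single]
  have h1 : HopfAlgebra.antipode R (((w g : ℤ) : R)) = ((w g : ℤ) : R) := by simp
  rw [h1, MonoidAlgebra.smul_single, smul_eq_mul]

lemma inv_add (w : G →* ℤˣ) (x y : MonoidAlgebra R G) : inv w (x + y) = inv w x + inv w y := by
  unfold inv
  rw [map_add, map_add]

lemma inv_zero (w : G →* ℤˣ) : inv w (0 : MonoidAlgebra R G) = 0 := by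
  unfold inv
  rw [map_zero, map_zero]

lemma inv_sum (w : G →* ℤˣ) {ι : Type} (s : Finset ι) (f : ι → MonoidAlgebra R G) :
    inv w (∑ i ∈ s, f i) = ∑ i ∈ s, inv w (f i) := by
  unfold inv
  rw [map_sum, map_sum]

lemma inv_mul (w : G →* ℤˣ) (x y : MonoidAlgebra R G) : inv w (x * y) = inv w y * inv w x := by
  induction x using MonoidAlgebra.induction_linear with
  | zero => rw [zero_mul, inv_zero, mul_zero]
  | add f g hf hg => rw [add_mul, inv_add, hf, hg, inv_add, mul_add]
  | single g q =>
    induction y using MonoidAlgebra.induction_linear with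
    | zero => rw [mul_zero, inv_zero, zero_mul]
    | add f g hf hg => rw [mul_add, inv_add, hf, hg, inv_add, add_mul]
    | single h r =>
      rw [single_mul_single, inv_single, inv_single, inv_single, single_mul_single, _root_.mul_inv_rev,
        map_mul, Units.val_mul, Int.cast_mul]
      congr 1
      ring

lemma inv_inv (w : G →* ℤˣ) (x : MonoidAlgebra R G) : inv w (inv w x) = x := by
  induction x using MonoidAlgebra.induction_linear with
  | zero => rw [inv_zero, inv_zero]
  | add f g hf hg => rw [inv_add, inv_add, hf, hg]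
  | single g q =>
    rw [inv_single, inv_single, _root_.inv_inv, map_inv, mul_assoc, ← Int.cast_mul]
    have h1 : ((w g : ℤ)) * (((w g)⁻¹ : ℤˣ) : ℤ) = 1 := by
      rw [← Units.val_mul, mul_inv_cancel, Units.val_one]
    rw [h1, Int.cast_one, mul_one]

/-- the linear extension of a function on the group -/
def hat (δ : G → MonoidAlgebra R G) : MonoidAlgebra R G →+ MonoidAlgebra R G :=
  MonoidAlgebra.liftNC ((algebraMap R (MonoidAlgebra R G)) : R →+ MonoidAlgebra R G) δ

lemma hat_single (δ : G → MonoidAlgebra R G) (g : G) (q : R) :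
    hat δ (single g q) = q • δ g := by
  unfold hat
  rw [MonoidAlgebra.liftNC_single]
  exact (Algebra.smul_def q (δ g)).symm

lemma hat_mul (δ : G → MonoidAlgebra R G) (hδ : ∀ g h, δ (g * h) = δ g + single g 1 * δ h)
    (x y : MonoidAlgebra R G) :
    hat δ (x * y) = x * hat δ y + (Coalgebra.counit y : R) • hat δ x := by
  induction x using MonoidAlgebra.induction_linear with
  | zero => simp
  | add f g hf hg =>
    rw [add_mul, map_add, hf, hg, add_mul, map_add, smul_add]
    abel
  | single g q =>
    induction y using MonoidAlgebra.induction_linear with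
    | zero => simp
    | add f g hf hg =>
      rw [mul_add, map_add, hf, hg, map_add, mul_add, map_add, add_smul]
      abel
    | single h r =>
      rw [single_mul_single, hat_single, hat_single, hat_single, hδ, smul_add, add_comm]
      have h1 : (Coalgebra.counit (single h r : MonoidAlgebra R G) : R) = r := by simp
      have h2 : (single g q : MonoidAlgebra R G) = q • single g 1 := by
        rw [MonoidAlgebra.smul_single, smul_eq_mul, mul_one]
      rw [h1, h2, smul_mul_assoc, mul_smul_comm, smul_smul, smul_smul, mul_comm r q]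

end

variable {a b c : Type} [Fintype a] [Fintype b] [Fintype c]

/-- **Crossed homomorphisms to the group algebra are principal** if the sequence is a beginning of
a free resolution and its dual is exact in degree one (first cohomology with coefficients in the
group algebra is zero). -/
theorem principal (w : G →* ℤˣ) {D₁ : Matrix b a (MonoidAlgebra R G)}
    {D₂ : Matrix c b (MonoidAlgebra R G)} (h : IsStart D₁ D₂)
    (hex : ∀ x : b → MonoidAlgebra R G, x ᵥ* dual w D₂ = 0 →
      ∃ y : a → MonoidAlgebra R G, y ᵥ* dual w D₁ = x)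
    (δ : G → MonoidAlgebra R G) (hδ : ∀ g h, δ (g * h) = δ g + single g 1 * δ h) :
    ∃ u : MonoidAlgebra R G, ∀ g, δ g = single g 1 * u - u := by
  classical
  obtain ⟨⟨t, ⟨v₀, hv₀⟩, h1⟩, h2⟩ := h
  let Φ : (a → MonoidAlgebra R G) → MonoidAlgebra R G := fun v => ∑ j, t j • hat δ (v j)
  have hΦ_add : ∀ v v', Φ (v + v') = Φ v + Φ v' := by
    intro v v'
    simp only [Φ, Pi.add_apply, map_add, smul_add, Finset.sum_add_distrib]
  have hΦ_zero : Φ 0 = 0 := by
    simp only [Φ, Pi.zero_apply, map_zero, smul_zero, Finset.sum_const_zero]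
  have hΦ_sum : ∀ (s : Finset b) (f : b → a → MonoidAlgebra R G),
      Φ (∑ i ∈ s, f i) = ∑ i ∈ s, Φ (f i) := by
    intro s f
    induction s using Finset.induction_on with
    | empty => rw [Finset.sum_empty, Finset.sum_empty, hΦ_zero]
    | insert i s hi ih => rw [Finset.sum_insert hi, Finset.sum_insert hi, hΦ_add, ih]
  have hΦ_smul : ∀ (x : MonoidAlgebra R G) (v : a → MonoidAlgebra R G),
      Φ (x • v) = x * Φ v + (∑ j, t j * Coalgebra.counit (v j)) • hat δ x := by
    intro x v
    simp only [Φ, Pi.smul_apply, smul_eq_mul, hat_mul δ hδ, smul_add, Finset.sum_add_distrib,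
      Finset.mul_sum, Finset.sum_smul, mul_smul_comm, mul_smul]
  -- the cocycle
  have hrow : ∀ i, ∑ j, t j * Coalgebra.counit (D₁ i j) = 0 := by
    intro i
    refine (h1 _).2 ⟨Pi.single i 1, ?_⟩
    rw [Matrix.single_one_vecMul]
    rfl
  have hz : ∀ v : b → MonoidAlgebra R G, ∑ i, v i * Φ (D₁ i) = Φ (v ᵥ* D₁) := by
    intro v
    have h3 : v ᵥ* D₁ = ∑ i, v i • D₁ i := by
      funext j
      simp [Matrix.vecMul, dotProduct, Finset.sum_apply]
    rw [h3, hΦ_sum]
    refine Finset.sum_congr rfl fun i _ => ?_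
    rw [hΦ_smul, hrow, zero_smul, add_zero]
  have hcoc : ∀ k, ∑ i, D₂ k i * Φ (D₁ i) = 0 := by
    intro k
    rw [hz]
    have h3 : D₂ k ᵥ* D₁ = 0 := by
      refine (h2 _).2 ⟨Pi.single k 1, ?_⟩
      rw [Matrix.single_one_vecMul]
      rfl
    rw [h3, hΦ_zero]
  obtain ⟨y, hy⟩ := hex (fun i => inv w (Φ (D₁ i))) (by
    funext k
    show ∑ i, inv w (Φ (D₁ i)) * inv w (D₂ k i) = 0
    have h3 : ∀ i, inv w (Φ (D₁ i)) * inv w (D₂ k i) = inv w (D₂ k i * Φ (D₁ i)) :=
      fun i => (inv_mul w _ _).symm
    simp only [h3]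
    rw [← inv_sum, hcoc, inv_zero])
  have hy' : ∀ i, Φ (D₁ i) = ∑ j, D₁ i j * inv w (y j) := by
    intro i
    have h3 : ∑ j, y j * inv w (D₁ i j) = inv w (Φ (D₁ i)) := congrFun hy i
    have h4 := congrArg (inv w) h3
    rw [inv_inv, inv_sum] at h4
    rw [← h4]
    refine Finset.sum_congr rfl fun j _ => ?_
    rw [inv_mul, inv_inv]
  have hker : ∀ v : a → MonoidAlgebra R G, ∑ j, t j * Coalgebra.counit (v j) = 0 →
      Φ v = ∑ j, v j * inv w (y j) := by
    intro v hv
    obtain ⟨x, rfl⟩ := (h1 v).1 hv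
    rw [← hz]
    simp only [hy', Finset.mul_sum, Matrix.vecMul, dotProduct, Finset.sum_mul, mul_assoc]
    rw [Finset.sum_comm]
  refine ⟨(∑ j, v₀ j * inv w (y j)) - Φ v₀, fun g => ?_⟩
  have h3 : ∑ j, t j * Coalgebra.counit (((single g (1 : R) - 1) • v₀) j) = 0 := by
    have h4 : ∀ j, (Coalgebra.counit (((single g (1 : R) - 1) • v₀) j) : R) = 0 := by
      intro j
      rw [Pi.smul_apply, smul_eq_mul, Pool.Agent.Helper28.HG.counit_mul, map_sub,
        Pool.Agent.Helper28.HG.counit_single_one, MonoidAlgebra.one_def,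
        Pool.Agent.Helper28.HG.counit_single_one, sub_self, zero_mul]
    simp only [h4, mul_zero, Finset.sum_const_zero]
  have h4 := hker _ h3
  rw [hΦ_smul, hv₀, one_smul, map_sub, hat_single, one_smul, MonoidAlgebra.one_def, hat_single,
    one_smul] at h4
  have h5 : δ 1 = 0 := by
    have h6 := hδ 1 1
    rw [mul_one, ← MonoidAlgebra.one_def, one_mul] at h6
    exact left_eq_add.1 h6
  rw [h5, sub_zero] at h4
  have h6 : ∑ j, ((single g (1 : R) - single 1 1) • v₀) j * inv w (y j) =
      (single g 1 - single 1 1) * ∑ j, v₀ j * inv w (y j) := by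
    rw [Finset.mul_sum]
    refine Finset.sum_congr rfl fun j _ => ?_
    rw [Pi.smul_apply, smul_eq_mul, mul_assoc]
  rw [h6, ← MonoidAlgebra.one_def] at h4
  rw [eq_sub_iff_add_eq, mul_sub]
  rw [sub_mul, one_mul, sub_mul, one_mul] at h4
  rw [← sub_eq_zero] at h4 ⊢
  rw [← h4]
  abel

end Pool.Agent.Helper77.FP
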