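import Pool.Agent.Helper77.FP.Asph
import Pool.Agent.Helper45.FH.RDS
import Mathlib.GroupTheory.CoprodI
set_option autoImplicit false

/-!
A group all of whose crossed homomorphisms to the group algebra are principal is not a free product.
-/

open Pool.Agent.Helper35.SH Pool.Agent.Helper45.FH MonoidAlgebra
open scoped Matrix

namespace Pool.Agent.Helper77.FP

/-- elements of finite order lie in all members of the rational derived series -/
lemma mem_rInf_of_isOfFinOrder {G : Type} [Group G] (g : G) (hg : IsOfFinOrder g) :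
    g ∈ rInf G := by
  unfold rInf
  rw [Subgroup.mem_iInf]
  intro s
  induction s with
  | zero => exact Subgroup.mem_top g
  | succ s ih =>
    obtain ⟨k, hk, hk'⟩ := isOfFinOrder_iff_pow_eq_one.1 hg
    rw [rds_succ, mem_nxt]
    exact ⟨ih, k, hk, by rw [hk']; exact Subgroup.one_mem _⟩

/-- an element of infinite order fixes no non-zero element of the group algebra -/
lemma eq_zero_of_fixed {R : Type} [CommRing R] {G : Type} [Group G] (a : G)
    (ha : ¬ IsOfFinOrder a) (u : MonoidAlgebra R G) (hu : single a 1 * u = u) : u = 0 := by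
  by_contra hne
  obtain ⟨x, hx⟩ : ∃ x, u.coeff x ≠ 0 := by
    by_contra h
    push Not at h
    apply hne
    apply MonoidAlgebra.coeff_injective
    ext x
    exact h x
  have h1 : ∀ y, u.coeff (a⁻¹ * y) = u.coeff y := by
    intro y
    have h2 := congrArg (fun v => MonoidAlgebra.coeff v y) hu
    simp only [MonoidAlgebra.coeff_single_mul_apply, one_mul] at h2
    exact h2
  have h2 : ∀ n : ℕ, u.coeff (a⁻¹ ^ n * x) = u.coeff x := by
    intro n
    induction n with
    | zero => rw [pow_zero, one_mul]
    | succ n ih => rw [pow_succ', mul_assoc, h1, ih]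
  have h3 : Function.Injective fun n : ℕ => a⁻¹ ^ n * x := by
    intro m n hmn
    have h4 : a⁻¹ ^ m = a⁻¹ ^ n := mul_right_cancel hmn
    have h5 : ¬ IsOfFinOrder a⁻¹ := by rwa [isOfFinOrder_inv_iff]
    exact (injective_pow_iff_not_isOfFinOrder.2 h5) h4
  have h4 : (Set.range fun n : ℕ => a⁻¹ ^ n * x) ⊆ (u.coeff.support : Set G) := by
    rintro _ ⟨n, rfl⟩
    simp only [Finset.mem_coe, Finsupp.mem_support_iff]
    rw [h2]
    exact hx
  exact (Set.infinite_range_of_injective h3) ((Finset.finite_toSet _).subset h4)

noncomputable section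

/-- left multiplication as a permutation of the group algebra -/
def mulPerm (R : Type) [CommRing R] (G : Type) [Group G] :
    G →* Equiv.Perm (MonoidAlgebra R G) where
  toFun g :=
    { toFun := fun m => single g 1 * m
      invFun := fun m => single g⁻¹ 1 * m
      left_inv := fun m => by
        show single g⁻¹ 1 * (single g 1 * m) = m
        rw [← mul_assoc, single_mul_single, inv_mul_cancel, mul_one, ← one_def, one_mul]
      right_inv := fun m => by
        show single g 1 * (single g⁻¹ 1 * m) = m
        rw [← mul_assoc, single_mul_single, mul_inv_cancel, mul_one, ← one_def, one_mul] }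
  map_one' := by
    ext1 m
    show single 1 1 * m = m
    rw [← one_def, one_mul]
  map_mul' g h := by
    ext1 m
    show single (g * h) 1 * m = single g 1 * (single h 1 * m)
    rw [← mul_assoc, single_mul_single, mul_one]

end

/-- **No free products.** If all crossed homomorphisms `G → R[G]` are principal then `G` is not the
free product of subgroups `A i` two of which are non-trivial and one of them has an element of
infinite order. -/
theorem not_bijective {R : Type} [CommRing R] [Nontrivial R] {G : Type} [Group G]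
    (hpr : ∀ δ : G → MonoidAlgebra R G, (∀ g h, δ (g * h) = δ g + single g 1 * δ h) →
      ∃ u : MonoidAlgebra R G, ∀ g, δ g = single g 1 * u - u)
    {ι : Type} (A : ι → Subgroup G) (i j : ι) (hij : i ≠ j) (a : G) (ha : a ∈ A i)
    (ha' : ¬ IsOfFinOrder a) (b : G) (hb : b ∈ A j) (hb' : b ≠ 1) :
    ¬ Function.Bijective (Monoid.CoprodI.lift fun i => (A i).subtype) := by
  classical
  intro hbij
  let τ : Equiv.Perm (MonoidAlgebra R G) := Equiv.addRight 1
  let ψ : ∀ k, A k →* Equiv.Perm (MonoidAlgebra R G) := fun k =>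
    if k = i then (mulPerm R G).comp (A k).subtype
    else (MulAut.conj τ⁻¹).toMonoidHom.comp ((mulPerm R G).comp (A k).subtype)
  have hψi : ∀ (x : A i) m, ψ i x m = single (x : G) 1 * m := by
    intro x m
    simp only [ψ, if_true]
    rfl
  have hψj : ∀ k, k ≠ i → ∀ (x : A k) m, ψ k x m = single (x : G) 1 * (m + 1) - 1 := by
    intro k hk x m
    simp only [ψ, if_neg hk]
    show (τ⁻¹ * mulPerm R G x * (τ⁻¹)⁻¹) m = _
    rw [_root_.inv_inv, Equiv.Perm.mul_apply, Equiv.Perm.mul_apply]
    show single (x : G) 1 * (m + 1) + -1 = _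
    rw [sub_eq_add_neg]
  have haff : ∀ k (x : A k) m, ψ k x m = single (x : G) 1 * m + ψ k x 0 := by
    intro k x m
    by_cases hk : k = i
    · subst hk
      rw [hψi, hψi, mul_zero, add_zero]
    · rw [hψj k hk, hψj k hk, zero_add, mul_add]
      abel
  let Ψ : Monoid.CoprodI (fun k => A k) →* Equiv.Perm (MonoidAlgebra R G) := Monoid.CoprodI.lift ψ
  let L : Monoid.CoprodI (fun k => A k) →* G := Monoid.CoprodI.lift fun i => (A i).subtype
  have hΨ : ∀ x m, Ψ x m = single (L x) 1 * m + Ψ x 0 := by
    intro x
    induction x using Monoid.CoprodI.induction_on with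
    | one =>
      intro m
      rw [map_one, map_one, Equiv.Perm.one_apply, Equiv.Perm.one_apply, ← one_def, one_mul,
        add_zero]
    | of k x =>
      intro m
      simp only [Ψ, L, Monoid.CoprodI.lift_of]
      exact haff k x m
    | mul x y hx hy =>
      intro m
      rw [map_mul, map_mul, Equiv.Perm.mul_apply, Equiv.Perm.mul_apply, hx, hy, hx (Ψ y 0),
        ← mul_one (1 : R), ← single_mul_single, mul_one, mul_add, mul_assoc]
      abel
  let e : Monoid.CoprodI (fun k => A k) ≃* G := MulEquiv.ofBijective L hbij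
  have he : ∀ g, L (e.symm g) = g := fun g => e.apply_symm_apply g
  obtain ⟨u, hu⟩ := hpr (fun g => Ψ (e.symm g) 0) (by
    intro g h
    show Ψ (e.symm (g * h)) 0 = Ψ (e.symm g) 0 + single g 1 * Ψ (e.symm h) 0
    rw [map_mul, map_mul, Equiv.Perm.mul_apply, hΨ, he, add_comm])
  let o : ∀ k, A k →* Monoid.CoprodI (fun k => A k) := fun k =>
    Monoid.CoprodI.of (M := fun k => A k) (i := k)
  have hof : ∀ k (x : A k), e.symm x = o k x := by
    intro k x
    apply e.injective
    rw [e.apply_symm_apply]
    show (x : G) = L (Monoid.CoprodI.of (M := fun k => A k) x)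
    simp only [L, Monoid.CoprodI.lift_of]
    rfl
  have h1 : u = 0 := by
    apply eq_zero_of_fixed a ha'
    have h2 := hu a
    have h3 : e.symm a = o i ⟨a, ha⟩ := hof i ⟨a, ha⟩
    have h4 : Ψ (o i ⟨a, ha⟩) 0 = 0 := by
      simp only [Ψ, o, Monoid.CoprodI.lift_of]
      rw [hψi, mul_zero]
    simp only [h3, h4] at h2
    exact (sub_eq_zero.1 h2.symm)
  have h2 := hu b
  have h3 : e.symm b = o j ⟨b, hb⟩ := hof j ⟨b, hb⟩
  have h4 : Ψ (o j ⟨b, hb⟩) 0 = single b 1 - 1 := by
    simp only [Ψ, o, Monoid.CoprodI.lift_of]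
    rw [hψj j hij.symm, zero_add, mul_one]
  simp only [h3, h4] at h2
  rw [h1, mul_zero, sub_zero, sub_eq_zero, one_def] at h2
  apply hb'
  by_contra h5
  have h6 := congrArg (fun v => MonoidAlgebra.coeff v 1) h2
  simp [h5] at h6

end Pool.Agent.Helper77.FP
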