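import Pool.Agent.Helper77.FP.NotFree
import Pool.Agent.Helper70.FS.Linked
set_option autoImplicit false

/-!
Groups generated by linked sets, and the omission of generators, if all crossed homomorphisms to
the group algebra are principal.
-/

open Pool.Agent.Helper35.SH Pool.Agent.Helper45.FH Pool.Agent.Helper70.FS MonoidAlgebra

namespace Pool.Agent.Helper77.FP

/-- a family of subgroups without trivial alternating products generates its free product -/
theorem lift_subtype_injective {G : Type} [Group G] {ι : Type} (A : ι → Subgroup G)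
    (h : ∀ l : List (ι × G), (∀ p ∈ l, p.2 ∈ A p.1 ∧ p.2 ≠ 1) →
      l.IsChain (fun a b => a.1 ≠ b.1) → l ≠ [] → (l.map Prod.snd).prod ≠ 1) :
    Function.Injective (Monoid.CoprodI.lift fun i => (A i).subtype) := by
  classical
  rw [injective_iff_map_eq_one]
  intro x hx
  obtain ⟨w, rfl⟩ := Monoid.CoprodI.Word.equiv.symm.surjective x
  change Monoid.CoprodI.lift _ w.prod = 1 at hx
  change w.prod = 1
  by_contra hne
  have hw : w.toList ≠ [] := by
    intro h0
    apply hne
    rw [Monoid.CoprodI.Word.prod, h0]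
    rfl
  refine h (w.toList.map fun p => (p.1, (p.2 : G))) ?_ ?_ ?_ ?_
  · intro p hp
    rw [List.mem_map] at hp
    obtain ⟨q, hq, rfl⟩ := hp
    refine ⟨q.2.2, ?_⟩
    intro h1
    exact w.ne_one q hq (Subtype.ext h1)
  · rw [List.isChain_map]
    exact w.chain_ne
  · intro h0
    exact hw (List.map_eq_nil_iff.1 h0)
  · rw [List.map_map]
    rw [Monoid.CoprodI.Word.prod, map_list_prod, List.map_map] at hx
    rw [← hx]
    congr 1

/-- the free product maps onto the subgroup generated by the factors -/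
theorem lift_subtype_surjective {G : Type} [Group G] {ι : Type} (A : ι → Subgroup G)
    (X : Set G) (hX : Subgroup.closure X = ⊤) (hXA : ∀ x ∈ X, ∃ i, x ∈ A i) :
    Function.Surjective (Monoid.CoprodI.lift fun i => (A i).subtype) := by
  rw [← MonoidHom.range_eq_top, eq_top_iff, ← hX, Subgroup.closure_le]
  intro x hx
  obtain ⟨i, hi⟩ := hXA x hx
  refine ⟨Monoid.CoprodI.of (M := fun k => A k) (⟨x, hi⟩ : A i), ?_⟩
  rw [Monoid.CoprodI.lift_of]
  rfl

section

variable {G : Type} [Group G] {M : Matroid G} (hE : M.E = Set.univ)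
  (h2 : ∀ g, M.Indep {g} ↔ g ∉ rInf G)
  (h4 : ∀ S : Set G, ∃ H : Subgroup G, M.closure S = H)
  (hS : Skew M)

include hE h4

lemma closure_subset (S : Set G) : (Subgroup.closure S : Set G) ⊆ M.closure S := by
  obtain ⟨H, hH⟩ := h4 S
  rw [hH]
  have h5 : Subgroup.closure S ≤ H := by
    rw [Subgroup.closure_le, ← hH]
    exact M.subset_closure S (by rw [hE]; exact Set.subset_univ _)
  exact h5

lemma spanning_of_closure (S : Set G) (X : Set G) (hX : Subgroup.closure X = ⊤)
    (hXS : X ⊆ M.closure S) : M.Spanning S := by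
  obtain ⟨H, hH⟩ := h4 S
  have h5 : H = ⊤ := by
    rw [eq_top_iff, ← hX, Subgroup.closure_le, ← hH]
    exact hXS
  rw [Matroid.spanning_iff_closure_eq (by rw [hE]; exact Set.subset_univ _), hH, h5, hE,
    Subgroup.coe_top]

include h2 hS

/-- the version with words of `exists_base_card_le` -/
theorem exists_base_word (m : ℕ) (X : Fin m → Set G)
    (hX : Subgroup.closure ((rInf G : Set G) ∪ ⋃ i, X i) = ⊤)
    (hl : ∀ i, ∀ a ∈ X i, ∀ b ∈ X i, a ∉ rInf G → b ∉ rInf G →
      Pool.Agent.Helper70.FS.Linked a b) :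
    ∃ B, M.IsBase B ∧ B.ncard ≤ m ∧ (B.ncard = m → (∀ i, ∃ a ∈ X i, a ∉ rInf G) ∧
      ∀ l : List (Fin m × G), (∀ p ∈ l, p.2 ∈ Subgroup.closure (X p.1) ∧ p.2 ∉ rInf G) →
      l.IsChain (fun a b => a.1 ≠ b.1) → l ≠ [] → (l.map Prod.snd).prod ∉ rInf G) := by
  classical
  let a : Fin m → G := fun i => if h : ∃ a ∈ X i, a ∉ rInf G then h.choose else 1
  have hXa : ∀ i, X i ⊆ M.closure {a i} := by
    intro i g hg
    by_cases hgr : g ∈ rInf G
    · exact mem_loops hE h2 g hgr _
    · have h6 : ∃ a ∈ X i, a ∉ rInf G := ⟨g, hg, hgr⟩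
      have h7 : a i = h6.choose := dif_pos h6
      have h8 : Pool.Agent.Helper70.FS.Linked g (a i) := by
        rw [h7]
        exact hl i g hg _ h6.choose_spec.1 hgr h6.choose_spec.2
      rw [← Pool.Agent.Helper70.FS.closure_eq_of_linked hE h2 h4 hS g (a i) h8]
      exact mem_self hE g
  have hA : ∀ i, (Subgroup.closure (X i) : Set G) ⊆ M.closure {a i} := by
    intro i
    obtain ⟨H, hH⟩ := h4 {a i}
    rw [hH]
    have h5 : Subgroup.closure (X i) ≤ H := by
      rw [Subgroup.closure_le, ← hH]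
      exact hXa i
    exact h5
  have hY : ((rInf G : Set G) ∪ ⋃ i, X i) ⊆ M.closure (Set.range a) := by
    rintro g (hg | hg)
    · exact mem_loops hE h2 g hg _
    · obtain ⟨i, hi⟩ := Set.mem_iUnion.1 hg
      exact M.closure_subset_closure (Set.singleton_subset_iff.2 (Set.mem_range_self i)) (hXa i hi)
  obtain ⟨B, hB, hB'⟩ := (spanning_of_closure hE h4 (Set.range a) _ hX hY).exists_isBase_subset
  have hc : (Set.range a).ncard ≤ m := by
    rw [← Set.image_univ]
    refine (Set.ncard_image_le Set.finite_univ).trans ?_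
    rw [Set.ncard_univ, Nat.card_fin]
  refine ⟨B, hB, (Set.ncard_le_ncard hB' (Set.finite_range a)).trans hc, fun hm => ?_⟩
  have h7 : B = Set.range a := Set.eq_of_subset_of_ncard_le hB' (by rw [hm]; exact hc)
    (Set.finite_range a)
  have h8 : Function.Injective a := by
    have h9 : (a '' Set.univ).ncard = (Set.univ : Set (Fin m)).ncard := by
      rw [Set.image_univ, Set.ncard_univ, Nat.card_fin, ← h7, hm]
    exact Set.injOn_univ.1 (Set.injOn_of_ncard_image_eq h9)
  refine ⟨fun i => ?_, ?_⟩
  · by_contra hcon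
    have h9 : a i = 1 := dif_neg hcon
    have h10 : M.Indep {a i} := hB.indep.subset (by
      rw [h7]
      exact Set.singleton_subset_iff.2 (Set.mem_range_self i))
    rw [h2, h9] at h10
    exact h10 (Subgroup.one_mem _)
  · intro l hl hch hne
    refine hS (Fin m) (fun i => {a i}) ?_ ?_ l ?_ hch hne
    · intro i j hij
      simp only [Function.onFun, Set.disjoint_singleton_left, Set.mem_singleton_iff]
      exact fun h => hij (h8 h)
    · rw [Set.iUnion_singleton_eq_range, ← h7]
      exact hB.indep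
    · intro p hp
      exact ⟨hA p.1 (hl p hp).1, (hl p hp).2⟩

/-- **Linked subgroups in the aspherical case.** -/
theorem exists_base_card_lt {R : Type} [CommRing R] [Nontrivial R]
    (hpr : ∀ δ : G → MonoidAlgebra R G, (∀ g h, δ (g * h) = δ g + single g 1 * δ h) →
      ∃ u : MonoidAlgebra R G, ∀ g, δ g = single g 1 * u - u)
    (m : ℕ) (hm : 2 ≤ m) (X : Fin m → Set G) (hX : Subgroup.closure (⋃ i, X i) = ⊤)
    (hl : ∀ i, ∀ a ∈ X i, ∀ b ∈ X i, a ∉ rInf G → b ∉ rInf G →
      Pool.Agent.Helper70.FS.Linked a b)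
    (hN : ∀ i, Subgroup.closure (X i) ⊓ rInf G = ⊥) :
    ∃ B, M.IsBase B ∧ B.ncard + 1 ≤ m := by
  obtain ⟨B, hB, hB1, hB2⟩ := exists_base_word hE h2 h4 hS m X (by
    rw [eq_top_iff, ← hX]
    exact Subgroup.closure_mono Set.subset_union_right) hl
  refine ⟨B, hB, ?_⟩
  by_contra hcon
  obtain ⟨h5, h6⟩ := hB2 (by omega)
  have hne : ∀ i, ∀ g ∈ Subgroup.closure (X i), g ≠ 1 → g ∉ rInf G := by
    intro i g hg hg1 hgN
    apply hg1
    have h7 : g ∈ Subgroup.closure (X i) ⊓ rInf G := ⟨hg, hgN⟩
    rw [hN] at h7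
    exact Subgroup.mem_bot.1 h7
  let i0 : Fin m := ⟨0, by omega⟩
  let i1 : Fin m := ⟨1, by omega⟩
  obtain ⟨a, ha, ha'⟩ := h5 i0
  obtain ⟨b, hb, hb'⟩ := h5 i1
  have h01 : i0 ≠ i1 := by
    intro h
    have := congrArg Fin.val h
    simp [i0, i1] at this
  refine not_bijective hpr (fun i => Subgroup.closure (X i)) i0 i1 h01
    a (Subgroup.subset_closure ha) (fun h => ha' (mem_rInf_of_isOfFinOrder a h))
    b (Subgroup.subset_closure hb) (fun h => hb' (by rw [h]; exact Subgroup.one_mem _)) ⟨?_, ?_⟩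
  · apply lift_subtype_injective
    intro l hl' hch hl0 hprod
    refine h6 l (fun p hp => ⟨(hl' p hp).1, hne _ _ (hl' p hp).1 (hl' p hp).2⟩) hch hl0 ?_
    rw [hprod]
    exact Subgroup.one_mem _
  · refine lift_subtype_surjective _ _ hX ?_
    intro x hx
    obtain ⟨i, hi⟩ := Set.mem_iUnion.1 hx
    exact ⟨i, Subgroup.subset_closure hi⟩

/-- **Omission of a generator in the aspherical case.** -/
theorem exists_base_subset_diff {R : Type} [CommRing R] [Nontrivial R]
    (hpr : ∀ δ : G → MonoidAlgebra R G, (∀ g h, δ (g * h) = δ g + single g 1 * δ h) →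
      ∃ u : MonoidAlgebra R G, ∀ g, δ g = single g 1 * u - u)
    (hN : rInf G = ⊥) (X : Set G) (hX : Subgroup.closure X = ⊤) (x : G)
    (hx : ∃ y ∈ X, y ≠ x ∧ y ≠ 1) :
    ∃ B, M.IsBase B ∧ B ⊆ X \ {x} := by
  classical
  by_contra hcon
  have hns : ¬ M.Spanning (X \ {x}) := fun h => hcon h.exists_isBase_subset
  obtain ⟨y, hy, hyx, hy1⟩ := hx
  -- the element `x` is not in the closure
  have hxc : x ∉ M.closure (X \ {x}) := by
    intro h
    apply hns
    refine spanning_of_closure hE h4 _ X hX ?_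
    intro z hz
    by_cases hzx : z = x
    · rw [hzx]
      exact h
    · exact M.subset_closure _ (by rw [hE]; exact Set.subset_univ _) ⟨hz, hzx⟩
  obtain ⟨I, hI⟩ := M.exists_isBasis (X \ {x}) (by rw [hE]; exact Set.subset_univ _)
  have hxI : x ∉ M.closure I := by
    rw [hI.closure_eq_closure]
    exact hxc
  have hxI' : x ∉ I := fun h => hxI (M.subset_closure I (by rw [hE]; exact Set.subset_univ _) h)
  have hind : M.Indep (insert x I) := by
    rw [hI.indep.insert_indep_iff]
    left
    exact ⟨by rw [hE]; exact Set.mem_univ _, hxI⟩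
  have hxN : x ∉ rInf G := by
    rw [← h2]
    exact hind.subset (Set.singleton_subset_iff.2 (Set.mem_insert _ _))
  have hx1 : x ≠ 1 := fun h => hxN (by rw [h]; exact Subgroup.one_mem _)
  have hyN : ∀ g : G, g ≠ 1 → g ∉ rInf G := by
    intro g hg h
    rw [hN] at h
    exact hg (Subgroup.mem_bot.1 h)
  let A : Bool → Subgroup G := fun k => if k then Subgroup.closure (X \ {x})
    else Subgroup.closure {x}
  have hAt : A true = Subgroup.closure (X \ {x}) := rfl
  have hAf : A false = Subgroup.closure {x} := rfl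
  refine not_bijective hpr A true false (by simp) y
    (by rw [hAt]; exact Subgroup.subset_closure ⟨hy, hyx⟩)
    (fun h => hyN y hy1 (mem_rInf_of_isOfFinOrder y h)) x
    (by rw [hAf]; exact Subgroup.subset_closure (Set.mem_singleton x)) hx1 ⟨?_, ?_⟩
  · apply lift_subtype_injective
    intro l hl hch hl0 hprod
    refine hS Bool (fun k => if k then I else {x}) ?_ ?_ l ?_ hch hl0 ?_
    · intro i j hij
      cases i <;> cases j <;> simp [Function.onFun] at hij ⊢
      · exact hxI'
      · exact hxI'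
    · have h5 : (⋃ k : Bool, if k = true then I else {x}) = insert x I := by
        ext g
        simp [Set.mem_iUnion]
      rw [h5]
      exact hind
    · intro p hp
      obtain ⟨h5, h6⟩ := hl p hp
      refine ⟨?_, hyN _ h6⟩
      obtain ⟨k, g⟩ := p
      cases k
      · simp only [Bool.false_eq_true, if_false]
        exact closure_subset hE h4 _ h5
      · simp only [if_true]
        rw [hI.closure_eq_closure]
        exact closure_subset hE h4 _ h5
    · rw [hprod]
      exact Subgroup.one_mem _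
  · refine lift_subtype_surjective A X hX ?_
    intro z hz
    by_cases hzx : z = x
    · exact ⟨false, by rw [hAf, hzx]; exact Subgroup.subset_closure (Set.mem_singleton x)⟩
    · exact ⟨true, by rw [hAt]; exact Subgroup.subset_closure ⟨hz, hzx⟩⟩

end

end Pool.Agent.Helper77.FP
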