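import Pool.Agent.Helper77.FP.NotFree
import Pool.Agent.Helper70.FS.NoSplit
set_option autoImplicit false

/-!
A group with a sequence which is a beginning of a resolution and whose dual is exact in degree one
is not a free product.
-/

open Pool.Agent.Helper35.SH MonoidAlgebra
open scoped Matrix

namespace Pool.Agent.Helper77.FP

theorem noSplit {R : Type} [CommRing R] [Nontrivial R] {G : Type} [Group G] (w : G →* ℤˣ)
    {a b c : Type} [Fintype a] [Fintype b] [Fintype c] {D₁ : Matrix b a (MonoidAlgebra R G)}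
    {D₂ : Matrix c b (MonoidAlgebra R G)} (h : IsStart D₁ D₂)
    (hex : ∀ x : b → MonoidAlgebra R G, x ᵥ* dual w D₂ = 0 →
      ∃ y : a → MonoidAlgebra R G, x = y ᵥ* dual w D₁) :
    Pool.Agent.Helper70.FS.NoSplit G := by
  intro ι A hA i j hij x hx hx'
  rw [eq_bot_iff]
  intro y hy
  rw [Subgroup.mem_bot]
  by_contra hy'
  refine not_bijective (fun δ hδ => principal w h (fun z hz => ?_) δ hδ) A i j hij x hx ?_ y hy hy'
    hA
  · obtain ⟨t, ht⟩ := hex z hz
    exact ⟨t, ht.symm⟩
  · intro hfin
    obtain ⟨n, hn, hn'⟩ := isOfFinOrder_iff_pow_eq_one.1 hfin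
    exact hx' n hn hn'

end Pool.Agent.Helper77.FP
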